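import Pool.Agent.H79.AN.GRDb
import Pool.Agent.H80.AN.TargetsA

/-! # GRD: the second moment of the small cells varies slowly -/

set_option autoImplicit false

namespace Pool.Agent.H79.AN

open MeasureTheory Metric Set Filter Topology Pool.Agent.H87.SN Pool.Agent.H87.SH
  Pool.Agent.H87.AX Pool.Agent.H22.AN
open Pool.Agent.H10.SN (zpL zpL_apply norm_split' zp_norm_le rho_sq' inner2_le)
open scoped ContDiff RealInnerProductSpace ENNReal

theorem grd_bw {d : ℕ} (z₀ : E d) (t : ℝ) (z : E d) : bw z₀ t z = bw 0 t (z - z₀) := by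
  unfold bw
  rw [sub_zero]

theorem grd_bw_fd {d : ℕ} (z₀ : E d) (t : ℝ) (z : E d) :
    fderiv ℝ (bw z₀ t) z = fderiv ℝ (bw 0 t) (z - z₀) := by
  have e : bw z₀ t = fun y => bw (0 : E d) t (y - z₀) := funext fun y => grd_bw z₀ t y
  rw [e, fderiv_comp_sub]

theorem grd_inner_cont {d m : ℕ} (i k : Fin (d + 2)) :
    Continuous fun L : V d →L[ℝ] E m => ⟪L (bv i), L (bv k)⟫ := by
  fun_prop

theorem grd_nsq_cont {d m : ℕ} : Continuous fun L : V d →L[ℝ] E m => nsq L := by
  unfold nsq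
  fun_prop

theorem grd_nzs_cont {d m : ℕ} : Continuous fun L : V d →L[ℝ] E m => nzs L := by
  unfold nzs
  fun_prop

theorem grd_in {d : ℕ} {z₀ : E d} {h : ℝ} {x : V d} (hh : h ≤ 1 / 64) (hz : ‖z₀‖ < 5 / 16)
    (h1 : ‖zp x - z₀‖ < h) (h2 : rho x < 4 * h) : x ∈ ball (0 : V d) (7 / 16) := by
  rw [mem_ball_zero_iff]
  have h3 : ‖zp x‖ < 21 / 64 := by
    have := norm_add_le (zp x - z₀) z₀
    rw [sub_add_cancel] at this
    linarith
  have h4 : rho x < 4 / 64 := by linarith
  have h5 := norm_split' x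
  rw [← rho_sq'] at h5
  have h6 := grd_rho_nn x
  have h7 := norm_nonneg (zp x)
  by_contra hc
  push Not at hc
  nlinarith

/-- the estimate of the derivative at one point -/
theorem grd_one {d m : ℕ} {G : V d → V d →L[ℝ] E m} {C₀ C₁ h : ℝ}
    (hC0 : 0 ≤ C₀) (hC1 : 0 < C₁) (hh : 0 < h) (hh2 : h ≤ 1 / 64)
    (hG : MemLp G 2 (volume.restrict (ball (0 : V d) 2))) (hS : Stat1 G)
    (hn : IntegrableOn (fun x => nsq (G x)) (ball (0 : V d) 2))
    (q1 : ContDiff ℝ 1 (grdq (d := d) h)) (q2 : ∀ x : V d, 0 ≤ grdq h x ∧ grdq h x ≤ 16 * h ^ 2)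
    (q3 : ∀ x : V d, 4 * h ≤ rho x → grdq h x = 0 ∧ ∀ v, fderiv ℝ (grdq h) x v = 0)
    (q4 : ∀ (x : V d) (b : Fin d), fderiv ℝ (grdq h) x (bv b.succ.succ) = 0)
    (q5 : ∀ x v : V d, |fderiv ℝ (grdq h) x v| ≤ (2 + 4 * C₀) * rho x * ‖v‖)
    {z₀ : E d} (hz : ‖z₀‖ < 5 / 16) (b1 : ContDiff ℝ 2 (bw z₀ h))
    (b2 : ∀ z, 0 ≤ bw z₀ h z ∧ bw z₀ h z ≤ C₁ / h ^ d)
    (b3 : ∀ z, h ≤ ‖z - z₀‖ → bw z₀ h z = 0)
    (b5 : ∀ z, ‖fderiv ℝ (bw z₀ h) z‖ ≤ C₁ / h ^ (d + 1)) (a : Fin d) :
    |∫ x in ball (0 : V d) 2, fderiv ℝ (bw z₀ h) (zp x) (bv a) * (grdq h x * nsq (G x))| ≤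
      (C₁ * (4 * (2 + 4 * C₀) + 32 * d)) / h ^ d * ∫ x in ball (0 : V d) (7 / 16),
        (grdS d h).indicator (fun q : E d × V d => nzs (G q.2) + rho q.2 ^ 2 * nsq (G q.2))
          (z₀, x) := by
  have b1' : ContDiff ℝ 1 (bw z₀ h) := b1.of_le (by norm_num)
  have b6 : ∀ z, h ≤ ‖z - z₀‖ → fderiv ℝ (bw z₀ h) z = 0 := by
    intro z hz'
    apply IsLocalMin.fderiv_eq_zero
    filter_upwards with y
    rw [b3 z hz']
    exact (b2 y).1
  set k : Fin (d + 2) := a.succ.succ with hk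
  set f : V d → ℝ := fun x => bw z₀ h (zp x) * grdq h x with hf
  have f1 : ContDiff ℝ 1 f := grd_f_smooth b1' q1
  have f2 : ∀ x v, fderiv ℝ f x v = fderiv ℝ (bw z₀ h) (zp x) (zp v) * grdq h x +
      bw z₀ h (zp x) * fderiv ℝ (grdq h) x v := fun x v => grd_f b1' q1 x v
  have f3 : ∀ x, ¬ (‖zp x - z₀‖ < h ∧ rho x < 4 * h) → f x = 0 ∧ ∀ v, fderiv ℝ f x v = 0 := by
    intro x hx
    by_cases h1 : ‖zp x - z₀‖ < h
    · have h2 : 4 * h ≤ rho x := by
        by_contra hc
        exact hx ⟨h1, not_le.1 hc⟩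
      obtain ⟨h3, h4⟩ := q3 x h2
      refine ⟨by simp [hf, h3], fun v => ?_⟩
      rw [f2, h3, h4]
      ring
    · have h2 := not_lt.1 h1
      refine ⟨by simp [hf, b3 _ h2], fun v => ?_⟩
      rw [f2, b6 _ h2, b3 _ h2]
      simp
  have f4 : ∀ x, x ∉ ball (0 : V d) (7 / 16) → f x = 0 ∧ ∀ v, fderiv ℝ f x v = 0 :=
    fun x hx => f3 x fun hc => hx (grd_in hh2 hz hc.1 hc.2)
  have f5 : ∀ x, |fderiv ℝ f x (bv 0)| ≤ C₁ / h ^ d * (2 + 4 * C₀) * rho x := by
    intro x
    rw [f2, grd_zp0, map_zero, zero_mul, zero_add, abs_mul, abs_of_nonneg (b2 _).1]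
    have := q5 x (bv 0)
    rw [grd_bvn, mul_one] at this
    calc _ ≤ C₁ / h ^ d * ((2 + 4 * C₀) * rho x) :=
          mul_le_mul (b2 _).2 this (abs_nonneg _) (by positivity)
      _ = _ := by ring
  have f6 : ∀ x, |fderiv ℝ f x (bv 1)| ≤ C₁ / h ^ d * (2 + 4 * C₀) * rho x := by
    intro x
    rw [f2, grd_zp1, map_zero, zero_mul, zero_add, abs_mul, abs_of_nonneg (b2 _).1]
    have := q5 x (bv 1)
    rw [grd_bvn, mul_one] at this
    calc _ ≤ C₁ / h ^ d * ((2 + 4 * C₀) * rho x) :=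
          mul_le_mul (b2 _).2 this (abs_nonneg _) (by positivity)
      _ = _ := by ring
  have f7 : ∀ x (b : Fin d), fderiv ℝ f x (bv b.succ.succ) =
      fderiv ℝ (bw z₀ h) (zp x) (bv b) * grdq h x := by
    intro x b
    rw [f2, grd_zp2, q4, mul_zero, add_zero]
  have f8 : ∀ x (b : Fin d), |fderiv ℝ f x (bv b.succ.succ)| ≤ 16 * (C₁ / h ^ d) := by
    intro x b
    rw [f7, abs_mul, abs_of_nonneg (q2 x).1]
    have h1 : |fderiv ℝ (bw z₀ h) (zp x) (bv b)| ≤ C₁ / h ^ (d + 1) := by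
      have h2 := (fderiv ℝ (bw z₀ h) (zp x)).le_opNorm (bv b)
      rw [grd_bvn, mul_one, Real.norm_eq_abs] at h2
      exact h2.trans (b5 _)
    calc _ ≤ C₁ / h ^ (d + 1) * (16 * h ^ 2) :=
          mul_le_mul h1 (q2 x).2 (q2 x).1 (by positivity)
      _ = 16 * (C₁ / h ^ d) * h := by
          rw [pow_succ]
          field_simp
      _ ≤ 16 * (C₁ / h ^ d) * 1 := by
          refine mul_le_mul_of_nonneg_left (by linarith) (by positivity)
      _ = _ := mul_one _
  -- the field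
  have hXs : ∀ x, x ∉ closedBall (0 : V d) (7 / 16) → f x • (bv k : V d) = 0 := by
    intro x hx
    rw [(f4 x fun hc => hx (ball_subset_closedBall hc)).1, zero_smul]
  have hsub : Function.support (fun x => f x • (bv k : V d)) ⊆ closedBall (0 : V d) (7 / 16) := by
    intro x hx
    by_contra hc
    exact hx (hXs x hc)
  have hts := closure_minimal hsub isClosed_closedBall
  have hst := hS (fun x => f x • (bv k : V d)) (f1.smul contDiff_const)
    (HasCompactSupport.intro (isCompact_closedBall (0 : V d) (7 / 16)) hXs)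
    (hts.trans (closedBall_subset_ball (by norm_num)))
  have hfd : ∀ x, fderiv ℝ (fun x => f x • (bv k : V d)) x =
      (fderiv ℝ f x).smulRight (bv k : V d) := by
    intro x
    exact (((f1.differentiable (by simp)) x).hasFDerivAt.smul_const (bv k : V d)).fderiv
  set A : V d → ℝ := fun x => nsq (G x) * fderiv ℝ f x (bv k) with hA
  set B : V d → ℝ := fun x => 2 * ∑ i, ⟪G x (bv i), G x (bv k)⟫ * fderiv ℝ f x (bv i) with hB
  have hst2 : ∀ x, statF (G x) (fderiv ℝ (fun x => f x • (bv k : V d)) x) = A x - B x := by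
    intro x
    rw [hfd, grd_stat]
  simp only [hst2] at hst
  have hst3 : ∫ x in ball (0 : V d) 2, (A x - B x) = 0 := by
    rw [setIntegral_eq_integral_of_forall_compl_eq_zero, hst]
    intro x hx
    have h1 := (f4 x fun hc => hx (ball_subset_ball (by norm_num) hc)).2
    simp [hA, hB, h1]
  have hcf : ∀ v : V d, Continuous fun x => fderiv ℝ f x v := fun v =>
    (f1.continuous_fderiv (by simp)).clm_apply continuous_const
  have hAi : IntegrableOn A (ball (0 : V d) 2) := by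
    refine Integrable.mono' (hn.const_mul (16 * (C₁ / h ^ d))) ?_ (Eventually.of_forall fun x => ?_)
    · exact (grd_nsq_cont.comp_aestronglyMeasurable hG.1).mul
        (hcf (bv k)).aestronglyMeasurable
    · show |nsq (G x) * fderiv ℝ f x (bv k)| ≤ _
      rw [abs_mul, abs_of_nonneg (grd_nsq_nn _), mul_comm]
      exact mul_le_mul_of_nonneg_right (f8 x a) (grd_nsq_nn _)
  have hzi : IntegrableOn (fun x => nzs (G x)) (ball (0 : V d) 2) := by
    refine Integrable.mono' hn (grd_nzs_cont.comp_aestronglyMeasurable hG.1)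
      (Eventually.of_forall fun x => ?_)
    rw [Real.norm_eq_abs, abs_of_nonneg (grd_nzs_nn _)]
    exact grd_nzs_le _
  have hri : IntegrableOn (fun x => rho x ^ 2 * nsq (G x)) (ball (0 : V d) 2) := by
    refine Integrable.mono' (hn.const_mul 4) ?_ ?_
    · exact grd_r2_smooth.continuous.aestronglyMeasurable.mul
        (grd_nsq_cont.comp_aestronglyMeasurable hG.1)
    · filter_upwards [ae_restrict_mem measurableSet_ball] with x hx
      rw [Real.norm_eq_abs, abs_of_nonneg (by have := grd_nsq_nn (G x); positivity)]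
      refine mul_le_mul_of_nonneg_right ?_ (grd_nsq_nn _)
      rw [mem_ball_zero_iff] at hx
      have h1 := norm_split' x
      rw [← rho_sq'] at h1
      nlinarith [sq_nonneg ‖zp x‖, norm_nonneg x]
  set P : V d → ℝ := fun x => nzs (G x) + rho x ^ 2 * nsq (G x) with hP
  have hPi : IntegrableOn P (ball (0 : V d) 2) := hzi.add hri
  have hP0 : ∀ x, 0 ≤ P x := fun x => by
    have h1 := grd_nsq_nn (G x)
    have h2 := grd_nzs_nn (G x)
    show 0 ≤ nzs (G x) + rho x ^ 2 * nsq (G x)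
    positivity
  set K := C₁ * (4 * (2 + 4 * C₀) + 32 * d) / h ^ d with hK
  have hK0 : 0 ≤ K := by positivity
  have hBb : ∀ x, |B x| ≤ K * P x := by
    intro x
    have := grd_pt (G x) (fderiv ℝ f x) a (grd_rho_nn x)
      (c₀ := C₁ / h ^ d * (2 + 4 * C₀)) (c₁ := 16 * (C₁ / h ^ d)) (by positivity) (by positivity)
      (f5 x) (f6 x) (f8 x)
    refine this.trans (le_of_eq ?_)
    show _ = K * (nzs (G x) + rho x ^ 2 * nsq (G x))
    rw [hK]
    ring
  have hBi : IntegrableOn B (ball (0 : V d) 2) := by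
    refine Integrable.mono' (hPi.const_mul K) ?_ (Eventually.of_forall fun x => ?_)
    · have : AEStronglyMeasurable (fun x => ∑ i, ⟪G x (bv i), G x (bv k)⟫ *
          fderiv ℝ f x (bv i)) (volume.restrict (ball (0 : V d) 2)) := by
        refine Finset.aestronglyMeasurable_fun_sum _ fun i _ => ?_
        exact ((grd_inner_cont i k).comp_aestronglyMeasurable hG.1).mul
          (hcf (bv i)).aestronglyMeasurable
      exact this.const_mul 2
    · rw [Real.norm_eq_abs]
      exact hBb x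
  rw [integral_sub hAi hBi, sub_eq_zero] at hst3
  have e1 : ∫ x in ball (0 : V d) 2, fderiv ℝ (bw z₀ h) (zp x) (bv a) *
      (grdq h x * nsq (G x)) = ∫ x in ball (0 : V d) 2, B x := by
    rw [← hst3]
    refine integral_congr_ae (Eventually.of_forall fun x => ?_)
    show fderiv ℝ (bw z₀ h) (zp x) (bv a) * (grdq h x * nsq (G x)) =
      nsq (G x) * fderiv ℝ f x (bv k)
    rw [hk, f7]
    ring
  rw [e1]
  have e2 : ∫ x in ball (0 : V d) (7 / 16), (grdS d h).indicator
      (fun q : E d × V d => nzs (G q.2) + rho q.2 ^ 2 * nsq (G q.2)) (z₀, x) =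
      ∫ x in ball (0 : V d) 2, (ball (0 : V d) (7 / 16)).indicator
        ({x : V d | ‖zp x - z₀‖ < h}.indicator P) x := by
    rw [setIntegral_indicator measurableSet_ball, inter_eq_right.2
      (ball_subset_ball (by norm_num : (7 : ℝ) / 16 ≤ 2))]
    refine integral_congr_ae (Eventually.of_forall fun x => ?_)
    by_cases hx : ‖zp x - z₀‖ < h
    · show (grdS d h).indicator _ (z₀, x) = _
      rw [indicator_of_mem (show (z₀, x) ∈ grdS d h from hx),
        indicator_of_mem (show x ∈ {x : V d | ‖zp x - z₀‖ < h} from hx)]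
    · show (grdS d h).indicator _ (z₀, x) = _
      rw [indicator_of_notMem (show (z₀, x) ∉ grdS d h from hx),
        indicator_of_notMem (show x ∉ {x : V d | ‖zp x - z₀‖ < h} from hx)]
  rw [e2, ← integral_const_mul, ← Real.norm_eq_abs]
  have hmS : MeasurableSet {x : V d | ‖zp x - z₀‖ < h} := by
    have : Continuous fun x : V d => ‖zp x - z₀‖ :=
      (((zpL d).continuous).sub continuous_const).norm
    exact (isOpen_lt this continuous_const).measurableSet
  refine norm_integral_le_of_norm_le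
    (((hPi.indicator hmS).indicator measurableSet_ball).const_mul K) ?_
  refine Eventually.of_forall fun x => ?_
  rw [Real.norm_eq_abs]
  by_cases hx : ‖zp x - z₀‖ < h ∧ x ∈ ball (0 : V d) (7 / 16)
  · rw [indicator_of_mem hx.2, indicator_of_mem (show x ∈ {x : V d | ‖zp x - z₀‖ < h} from hx.1)]
    exact hBb x
  · have h1 : ∀ v, fderiv ℝ f x v = 0 :=
      (f3 x fun hc => hx ⟨hc.1, grd_in hh2 hz hc.1 hc.2⟩).2
    have h2 : B x = 0 := by simp [hB, h1]
    rw [h2, abs_zero]
    refine mul_nonneg hK0 ?_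
    exact indicator_nonneg (fun y _ => indicator_nonneg (fun y _ => hP0 y) y) x

theorem pf_GRD (hCAC : T_CAC) (hBWF : T_BWF) (hCHF : T_CHF) (hMUF : T_MUF) : T_GRD := by
  intro d
  obtain ⟨Cc, hCc, hcac⟩ := hCAC d
  obtain ⟨-, C₁, hC1, hbw⟩ := hBWF d
  obtain ⟨C₀, hC0, hch⟩ := hCHF
  set V₁ := volume.real (ball (0 : E d) 1) with hV
  have hV0 : 0 ≤ V₁ := measureReal_nonneg
  set K₀ := C₁ * (4 * (2 + 4 * C₀) + 32 * d) with hK
  have hK0 : 0 ≤ K₀ := by positivity
  refine ⟨d * K₀ * V₁ * (Cc / (1 / 2 - 7 / 16) ^ 2 + 1), by positivity, ?_⟩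
  intro m G hG hS h hh hh2
  obtain ⟨-, -, -, h4, -, -⟩ := hMUF d m G hG
  have hn : IntegrableOn (fun x => nsq (G x)) (ball (0 : V d) 2) :=
    (h4 _ measurableSet_ball subset_rfl).1
  obtain ⟨s1, s2, -, s4, s5, s6, -, -⟩ := hch d (2 * h) (by linarith)
  obtain ⟨q1, q2, q3, q4, q5⟩ := grd_q hC0 hh s1 s2 s4 s5 s6
  have b0 := hbw 0 h hh
  have hw : Integrable (fun x => grdq h x * nsq (G x)) (volume.restrict (ball (0 : V d) 2)) := by
    refine Integrable.mono' (hn.const_mul (16 * h ^ 2)) ?_ (Eventually.of_forall fun x => ?_)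
    · exact q1.continuous.aestronglyMeasurable.mul
        (grd_nsq_cont.comp_aestronglyMeasurable hG.1)
    · rw [Real.norm_eq_abs, abs_of_nonneg (mul_nonneg (q2 x).1 (grd_nsq_nn _))]
      exact mul_le_mul_of_nonneg_right (q2 x).2 (grd_nsq_nn _)
  have hgn : gn G h = fun z₀ : E d => ∫ x in ball (0 : V d) 2,
      bw 0 h (zp x - z₀) * (grdq h x * nsq (G x)) := by
    funext z₀
    unfold gn
    refine integral_congr_ae (Eventually.of_forall fun x => ?_)
    show bw z₀ h (zp x) * (rho x ^ 2 * chh (2 * h) x ^ 2) * nsq (G x) =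
      bw 0 h (zp x - z₀) * (grdq h x * nsq (G x))
    rw [grd_bw z₀]
    unfold grdq
    ring
  have hpar := grd_par (μ := volume.restrict (ball (0 : V d) 2)) (β := bw (0 : E d) h)
    (b0.1.of_le (by norm_num)) (B₀ := C₁ / h ^ d) (B₁ := C₁ / h ^ (d + 1))
    (fun z => by rw [abs_of_nonneg (b0.2.1 z).1]; exact (b0.2.1 z).2) (b0.2.2.2.2.1)
    (p := fun x : V d => zp x) (zpL d).continuous.measurable hw
  rw [← hgn] at hpar
  refine ⟨hpar.1, fun z₀ => ?_, ?_⟩
  · unfold gn
    refine integral_nonneg fun x => ?_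
    have h1 := ((hbw z₀ h hh).2.1 (zp x)).1
    have h2 := grd_nsq_nn (G x)
    show 0 ≤ bw z₀ h (zp x) * (rho x ^ 2 * chh (2 * h) x ^ 2) * nsq (G x)
    positivity
  set P : V d → ℝ := fun x => nzs (G x) + rho x ^ 2 * nsq (G x) with hP
  have hzi : IntegrableOn (fun x => nzs (G x)) (ball (0 : V d) 2) := by
    refine Integrable.mono' hn (grd_nzs_cont.comp_aestronglyMeasurable hG.1)
      (Eventually.of_forall fun x => ?_)
    rw [Real.norm_eq_abs, abs_of_nonneg (grd_nzs_nn _)]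
    exact grd_nzs_le _
  have hri : IntegrableOn (fun x => rho x ^ 2 * nsq (G x)) (ball (0 : V d) 2) := by
    refine Integrable.mono' (hn.const_mul 4) ?_ ?_
    · exact grd_r2_smooth.continuous.aestronglyMeasurable.mul
        (grd_nsq_cont.comp_aestronglyMeasurable hG.1)
    · filter_upwards [ae_restrict_mem measurableSet_ball] with x hx
      rw [Real.norm_eq_abs, abs_of_nonneg (by have := grd_nsq_nn (G x); positivity)]
      refine mul_le_mul_of_nonneg_right ?_ (grd_nsq_nn _)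
      rw [mem_ball_zero_iff] at hx
      have h1 := norm_split' x
      rw [← rho_sq'] at h1
      nlinarith [sq_nonneg ‖zp x‖, norm_nonneg x]
  have hP0 : ∀ x, 0 ≤ P x := fun x => by
    have h1 := grd_nsq_nn (G x)
    have h2 := grd_nzs_nn (G x)
    show 0 ≤ nzs (G x) + rho x ^ 2 * nsq (G x)
    positivity
  have hs1 : ball (0 : V d) (7 / 16) ⊆ ball 0 2 := ball_subset_ball (by norm_num)
  have hs2 : ball (0 : V d) (7 / 16) ⊆ ball 0 (1 / 2) := ball_subset_ball (by norm_num)
  have hs3 : ball (0 : V d) (1 / 2) ⊆ ball 0 2 := ball_subset_ball (by norm_num)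
  have hPi : IntegrableOn P (ball (0 : V d) (7 / 16)) := (hzi.add hri).mono_set hs1
  obtain ⟨i1, i2⟩ := grd_fub (d := d) (h := h) hh (P := P) (D := ball (0 : V d) (7 / 16))
    (B := ball (0 : E d) (5 / 16)) hPi hP0 measurableSet_ball measure_ball_lt_top.ne
  have hpt : ∀ z ∈ ball (0 : E d) (5 / 16), ‖fderiv ℝ (gn G h) z‖ ≤
      d * (K₀ / h ^ d * ∫ x in ball (0 : V d) (7 / 16),
        (grdS d h).indicator (fun q : E d × V d => P q.2) (z, x)) := by
    intro z hz
    rw [mem_ball_zero_iff] at hz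
    obtain ⟨t1, t2, t3, -, t5, -⟩ := hbw z h hh
    refine grd_norm _ (fun a => ?_) ?_
    · rw [hpar.2 z (bv a), abs_neg]
      have := grd_one hC0 hC1 hh hh2 hG hS hn q1 q2 q3 q4 q5 hz t1 t2 t3 t5 a
      refine le_trans (le_of_eq ?_) this
      congr 1
      refine integral_congr_ae (Eventually.of_forall fun x => ?_)
      show fderiv ℝ (bw 0 h) (zp x - z) (bv a) * _ = fderiv ℝ (bw z h) (zp x) (bv a) * _
      rw [grd_bw_fd z]
    · refine mul_nonneg (by positivity) (integral_nonneg fun x => ?_)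
      exact indicator_nonneg (fun q _ => hP0 _) _
  have step : ∫ z in ball (0 : E d) (5 / 16), ‖fderiv ℝ (gn G h) z‖ ≤
      ∫ z in ball (0 : E d) (5 / 16), d * (K₀ / h ^ d * ∫ x in ball (0 : V d) (7 / 16),
        (grdS d h).indicator (fun q : E d × V d => P q.2) (z, x)) := by
    refine integral_mono_of_nonneg (Eventually.of_forall fun z => norm_nonneg _)
      ((i1.const_mul _).const_mul _) ?_
    filter_upwards [ae_restrict_mem measurableSet_ball] with z hz
    exact hpt z hz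
  rw [integral_const_mul, integral_const_mul] at step
  have hPe : ∫ x in ball (0 : V d) (7 / 16), P x ≤
      (Cc / (1 / 2 - 7 / 16) ^ 2 + 1) * V2 G (1 / 2) := by
    have e1 : ∫ x in ball (0 : V d) (7 / 16), P x = (∫ x in ball (0 : V d) (7 / 16), nzs (G x)) +
        ∫ x in ball (0 : V d) (7 / 16), rho x ^ 2 * nsq (G x) :=
      integral_add (hzi.mono_set hs1) (hri.mono_set hs1)
    have e2 := hcac m G hG hS (7 / 16) (1 / 2) (by norm_num) (by norm_num) (by norm_num)
    have e3 : ∫ x in ball (0 : V d) (7 / 16), rho x ^ 2 * nsq (G x) ≤ V2 G (1 / 2) := by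
      refine setIntegral_mono_set (hri.mono_set hs3) ?_ (LE.le.eventuallyLE hs2)
      refine Eventually.of_forall fun x => ?_
      have h1 := grd_nsq_nn (G x)
      show 0 ≤ rho x ^ 2 * nsq (G x)
      positivity
    rw [e1]
    linarith
  have hhd : 0 < h ^ d := by positivity
  calc _ ≤ d * (K₀ / h ^ d * ∫ z in ball (0 : E d) (5 / 16), ∫ x in ball (0 : V d) (7 / 16),
        (grdS d h).indicator (fun q : E d × V d => P q.2) (z, x)) := step
    _ ≤ d * (K₀ / h ^ d * (h ^ d * V₁ * ∫ x in ball (0 : V d) (7 / 16), P x)) := by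
        refine mul_le_mul_of_nonneg_left ?_ (by positivity)
        exact mul_le_mul_of_nonneg_left i2 (by positivity)
    _ = d * K₀ * V₁ * ∫ x in ball (0 : V d) (7 / 16), P x := by
        field_simp
    _ ≤ d * K₀ * V₁ * ((Cc / (1 / 2 - 7 / 16) ^ 2 + 1) * V2 G (1 / 2)) :=
        mul_le_mul_of_nonneg_left hPe (by positivity)
    _ = _ := by ring

end Pool.Agent.H79.AN
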