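import Pool.Agent.H22.AN.TB3
import Pool.Agent.H10.SN.INN

/-! # GRD, first part: parametric integrals and the Fubini step -/

set_option autoImplicit false

namespace Pool.Agent.H79.AN

open MeasureTheory Metric Set Filter Topology Pool.Agent.H87.SN Pool.Agent.H87.SH
  Pool.Agent.H87.AX Pool.Agent.H22.AN
open Pool.Agent.H10.SN (zpL zpL_apply norm_split' zp_norm_le rho_sq')
open scoped ContDiff RealInnerProductSpace ENNReal

/-- parametric integrals -/
theorem grd_par {α : Type*} [MeasurableSpace α] {μ : Measure α} {d : ℕ} {β : E d → ℝ}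
    (hβ : ContDiff ℝ 1 β) {B₀ B₁ : ℝ} (hB0 : ∀ z, |β z| ≤ B₀) (hB1 : ∀ z, ‖fderiv ℝ β z‖ ≤ B₁)
    {p : α → E d} (hp : Measurable p) {w : α → ℝ} (hw : Integrable w μ) :
    ContDiff ℝ 1 (fun z₀ : E d => ∫ x, β (p x - z₀) * w x ∂μ) ∧
    ∀ z₀ v : E d, fderiv ℝ (fun z₀ : E d => ∫ x, β (p x - z₀) * w x ∂μ) z₀ v =
      - ∫ x, fderiv ℝ β (p x - z₀) v * w x ∂μ := by
  have hc : Continuous (fderiv ℝ β) := hβ.continuous_fderiv (by simp)
  have hd : Differentiable ℝ β := hβ.differentiable (by simp)
  set F' : E d → α → (E d →L[ℝ] ℝ) := fun z₀ x => -(w x • fderiv ℝ β (p x - z₀)) with hF'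
  have hm : ∀ z₀, AEStronglyMeasurable (fun x => β (p x - z₀) * w x) μ := fun z₀ =>
    ((hd.continuous.measurable.comp (hp.sub_const z₀)).aestronglyMeasurable).mul hw.1
  have hm' : ∀ z₀, AEStronglyMeasurable (F' z₀) μ := fun z₀ =>
    (hw.1.smul ((hc.measurable.comp (hp.sub_const z₀)).aestronglyMeasurable)).neg
  have hi : ∀ z₀, Integrable (fun x => β (p x - z₀) * w x) μ := fun z₀ =>
    (hw.abs.const_mul B₀).mono' (hm z₀) (Eventually.of_forall fun x => by
      rw [Real.norm_eq_abs, abs_mul]
      exact mul_le_mul_of_nonneg_right (hB0 _) (abs_nonneg _))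
  have hb : ∀ z₀ x, ‖F' z₀ x‖ ≤ B₁ * |w x| := by
    intro z₀ x
    show ‖-(w x • fderiv ℝ β (p x - z₀))‖ ≤ _
    rw [norm_neg, norm_smul, Real.norm_eq_abs, mul_comm]
    exact mul_le_mul_of_nonneg_right (hB1 _) (abs_nonneg _)
  have hbi : Integrable (fun x => B₁ * |w x|) μ := hw.abs.const_mul B₁
  have hF'i : ∀ z₀, Integrable (F' z₀) μ := fun z₀ =>
    hbi.mono' (hm' z₀) (Eventually.of_forall fun x => hb z₀ x)
  have hder : ∀ z₀, HasFDerivAt (fun z₀ : E d => ∫ x, β (p x - z₀) * w x ∂μ)
      (∫ x, F' z₀ x ∂μ) z₀ := by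
    intro z₀
    refine hasFDerivAt_integral_of_dominated_of_fderiv_le (s := univ)
      (F := fun z₀ x => β (p x - z₀) * w x) (bound := fun x => B₁ * |w x|) univ_mem
      (Eventually.of_forall hm) (hi z₀) (hm' z₀)
      (Eventually.of_forall fun x z _ => hb z x) hbi (Eventually.of_forall fun x z _ => ?_)
    have h1 : HasFDerivAt (fun z : E d => p x - z) (-(ContinuousLinearMap.id ℝ (E d))) z :=
      (hasFDerivAt_id z).const_sub (p x)
    have h2 := ((hd (p x - z)).hasFDerivAt.comp z h1).mul_const (w x)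
    refine h2.congr_fderiv ?_
    ext v
    simp [F']
  have hfd : ∀ z₀, fderiv ℝ (fun z₀ : E d => ∫ x, β (p x - z₀) * w x ∂μ) z₀ =
      ∫ x, F' z₀ x ∂μ := fun z₀ => (hder z₀).fderiv
  refine ⟨?_, fun z₀ v => ?_⟩
  · rw [contDiff_one_iff_fderiv]
    refine ⟨fun z₀ => (hder z₀).differentiableAt, ?_⟩
    rw [show fderiv ℝ (fun z₀ : E d => ∫ x, β (p x - z₀) * w x ∂μ) =
      fun z₀ => ∫ x, F' z₀ x ∂μ from funext hfd]
    refine continuous_of_dominated hm' (fun z₀ => Eventually.of_forall fun x => hb z₀ x) hbi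
      (Eventually.of_forall fun x => ?_)
    show Continuous fun z₀ => -(w x • fderiv ℝ β (p x - z₀))
    have : Continuous fun z₀ : E d => fderiv ℝ β (p x - z₀) :=
      hc.comp (continuous_const.sub continuous_id)
    exact (this.const_smul (w x)).neg
  · rw [hfd, ContinuousLinearMap.integral_apply (hF'i z₀), ← integral_neg]
    refine integral_congr_ae (Eventually.of_forall fun x => ?_)
    show (-(w x • fderiv ℝ β (p x - z₀))) v = -(fderiv ℝ β (p x - z₀) v * w x)
    simp [mul_comm]

/-- the set of the pairs -/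
def grdS (d : ℕ) (h : ℝ) : Set (E d × V d) := {q | ‖zp q.2 - q.1‖ < h}

theorem grdS_open (d : ℕ) (h : ℝ) : IsOpen (grdS d h) := by
  have : Continuous fun q : E d × V d => ‖zp q.2 - q.1‖ := by
    have h1 : Continuous fun q : E d × V d => zpL d q.2 := (zpL d).continuous.comp continuous_snd
    exact (h1.sub continuous_fst).norm
  exact isOpen_lt this continuous_const

/-- The Fubini step. -/
theorem grd_fub {d : ℕ} {h : ℝ} (hh : 0 < h) {P : V d → ℝ} {D : Set (V d)} {B : Set (E d)}
    (hP : IntegrableOn P D) (hP0 : ∀ x, 0 ≤ P x) (hB : MeasurableSet B) (hBf : volume B ≠ ⊤) :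
    Integrable (fun z : E d => ∫ x in D, (grdS d h).indicator (fun q => P q.2) (z, x))
      (volume.restrict B) ∧
    ∫ z in B, ∫ x in D, (grdS d h).indicator (fun q => P q.2) (z, x) ≤
      h ^ d * volume.real (ball (0 : E d) 1) * ∫ x in D, P x := by
  haveI : IsFiniteMeasure (volume.restrict B) := ⟨by
    rw [Measure.restrict_apply_univ]
    exact lt_top_iff_ne_top.2 hBf⟩
  have h1 : Integrable (fun q : E d × V d => P q.2)
      ((volume.restrict B).prod (volume.restrict D)) := Integrable.comp_snd hP _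
  have h2 : Integrable ((grdS d h).indicator (fun q : E d × V d => P q.2))
      ((volume.restrict B).prod (volume.restrict D)) :=
    h1.indicator (grdS_open d h).measurableSet
  have h3 : Integrable (Function.uncurry fun (z : E d) (x : V d) =>
      (grdS d h).indicator (fun q => P q.2) (z, x))
      ((volume.restrict B).prod (volume.restrict D)) := by
    exact h2
  refine ⟨h2.integral_prod_left, ?_⟩
  rw [integral_integral_swap h3, ← integral_const_mul]
  have h4 : ∀ x, ∫ z in B, (grdS d h).indicator (fun q => P q.2) (z, x) ≤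
      h ^ d * volume.real (ball (0 : E d) 1) * P x := by
    intro x
    have e1 : (fun z : E d => (grdS d h).indicator (fun q => P q.2) (z, x)) =
        (ball (zp x) h).indicator (fun _ => P x) := by
      funext z
      by_cases hz : z ∈ ball (zp x) h
      · rw [indicator_of_mem hz, indicator_of_mem]
        show ‖zp x - z‖ < h
        rwa [mem_ball, dist_comm, dist_eq_norm] at hz
      · rw [indicator_of_notMem hz, indicator_of_notMem]
        intro hc
        apply hz
        have hc' : ‖zp x - z‖ < h := hc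
        rwa [mem_ball, dist_comm, dist_eq_norm]
    rw [e1, setIntegral_indicator measurableSet_ball, setIntegral_const, smul_eq_mul]
    refine mul_le_mul_of_nonneg_right ?_ (hP0 x)
    have e2 : volume.real (ball (zp x) h) = h ^ d * volume.real (ball (0 : E d) 1) := by
      rw [measureReal_def, measureReal_def, Measure.addHaar_ball_of_pos _ _ hh, ENNReal.toReal_mul,
        ENNReal.toReal_ofReal (by positivity)]
      simp
    rw [← e2]
    exact measureReal_mono inter_subset_right measure_ball_lt_top.ne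
  refine integral_mono_of_nonneg ?_ (hP.const_mul _) (Eventually.of_forall h4)
  refine Eventually.of_forall fun x => integral_nonneg fun z => ?_
  exact indicator_nonneg (fun q _ => hP0 _) _

/-- the norm of a functional and its values on the basis vectors -/
theorem grd_norm {d : ℕ} (L : E d →L[ℝ] ℝ) {c : ℝ} (hc : ∀ a, |L (bv a)| ≤ c) (hc0 : 0 ≤ c) :
    ‖L‖ ≤ d * c := by
  refine L.opNorm_le_bound (by positivity) fun v => ?_
  have h1 : v = ∑ a : Fin d, v a • (bv a : E d) := by
    ext i
    simp [bv, Pi.single_apply]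
  have h2 : L v = ∑ a : Fin d, v a * L (bv a) := by
    conv_lhs => rw [h1]
    rw [map_sum]
    exact Finset.sum_congr rfl fun a _ => by rw [map_smul, smul_eq_mul]
  rw [h2, Real.norm_eq_abs]
  refine (Finset.abs_sum_le_sum_abs _ _).trans ?_
  have h3 : ∀ a ∈ (Finset.univ : Finset (Fin d)), |v a * L (bv a)| ≤ c * ‖v‖ := by
    intro a _
    rw [abs_mul, mul_comm]
    have h4 : |v a| ≤ ‖v‖ := by
      have := EuclideanSpace.norm_eq v
      have h5 := PiLp.norm_apply_le v a
      rwa [Real.norm_eq_abs] at h5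
    exact mul_le_mul (hc a) h4 (abs_nonneg _) hc0
  refine (Finset.sum_le_sum h3).trans ?_
  rw [Finset.sum_const, Finset.card_univ, Fintype.card_fin, nsmul_eq_mul]
  linarith

theorem grd_stat {d m : ℕ} (L : V d →L[ℝ] E m) (ℓ : V d →L[ℝ] ℝ) (k : Fin (d + 2)) :
    statF L (ℓ.smulRight (bv k : V d)) =
      nsq L * ℓ (bv k) - 2 * ∑ i, ⟪L (bv i), L (bv k)⟫ * ℓ (bv i) := by
  unfold statF
  have h1 : ∀ i j : Fin (d + 2), (ℓ.smulRight (bv k : V d) (bv i)) j =
      if j = k then ℓ (bv i) else 0 := by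
    intro i j
    simp [bv]
  simp only [h1, mul_ite, mul_zero, Finset.sum_ite_eq', Finset.mem_univ, if_true]

end Pool.Agent.H79.AN
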