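import Pool.Agent.H79.AN.GRDa

/-! # GRD, second part: the test field -/

set_option autoImplicit false

namespace Pool.Agent.H79.AN

open MeasureTheory Metric Set Filter Topology Pool.Agent.H87.SN Pool.Agent.H87.SH
  Pool.Agent.H87.AX Pool.Agent.H22.AN
open Pool.Agent.H10.SN (zpL zpL_apply norm_split' zp_norm_le rho_sq' inner2_le)
open scoped ContDiff RealInnerProductSpace ENNReal

/-- the cutoff with the square of the distance -/
noncomputable def grdq {d : ℕ} (h : ℝ) (x : V d) : ℝ := rho x ^ 2 * chh (2 * h) x ^ 2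

theorem grd_rho_nn {d : ℕ} (x : V d) : 0 ≤ rho x := Real.sqrt_nonneg _

theorem grd_r2 {d : ℕ} (x : V d) : ∃ ℓ : V d →L[ℝ] ℝ,
    HasFDerivAt (fun x : V d => rho x ^ 2) ℓ x ∧ ∀ v, ℓ v = 2 * (x 0 * v 0 + x 1 * v 1) := by
  have h0 : HasFDerivAt (fun y : V d => y 0) (EuclideanSpace.proj 0 : V d →L[ℝ] ℝ) x :=
    (EuclideanSpace.proj (0 : Fin (d + 2)) : V d →L[ℝ] ℝ).hasFDerivAt
  have h1 : HasFDerivAt (fun y : V d => y 1) (EuclideanSpace.proj 1 : V d →L[ℝ] ℝ) x :=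
    (EuclideanSpace.proj (1 : Fin (d + 2)) : V d →L[ℝ] ℝ).hasFDerivAt
  have h2 := (h0.mul h0).add (h1.mul h1)
  have e : (fun x : V d => rho x ^ 2) = fun y : V d => y 0 * y 0 + y 1 * y 1 := by
    funext y
    rw [rho_sq']
    ring
  rw [e]
  refine ⟨_, h2, fun v => ?_⟩
  simp
  ring

theorem grd_r2_smooth {d : ℕ} : ContDiff ℝ ∞ (fun x : V d => rho x ^ 2) := by
  have e : (fun x : V d => rho x ^ 2) = fun y : V d => y 0 * y 0 + y 1 * y 1 := by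
    funext y
    rw [rho_sq']
    ring
  rw [e]
  have h0 : ContDiff ℝ ∞ (fun x : V d => x 0) :=
    (EuclideanSpace.proj (𝕜 := ℝ) (0 : Fin (d + 2))).contDiff
  have h1 : ContDiff ℝ ∞ (fun x : V d => x 1) :=
    (EuclideanSpace.proj (𝕜 := ℝ) (1 : Fin (d + 2))).contDiff
  exact (h0.mul h0).add (h1.mul h1)

theorem grd_q {d : ℕ} {C₀ h : ℝ} (hC : 0 ≤ C₀) (hh : 0 < h)
    (s1 : ContDiff ℝ ∞ (chh (d := d) (2 * h)))
    (s2 : ∀ x : V d, 0 ≤ chh (2 * h) x ∧ chh (2 * h) x ≤ 1)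
    (s4 : ∀ x : V d, 2 * (2 * h) ≤ rho x → chh (2 * h) x = 0)
    (s5 : ∀ x v : V d, |fderiv ℝ (chh (2 * h)) x v| ≤ C₀ / (2 * h) * ‖v‖)
    (s6 : ∀ (x : V d) (i : Fin d), fderiv ℝ (chh (2 * h)) x (bv i.succ.succ) = 0) :
    ContDiff ℝ 1 (grdq (d := d) h) ∧ (∀ x : V d, 0 ≤ grdq h x ∧ grdq h x ≤ 16 * h ^ 2) ∧
    (∀ x : V d, 4 * h ≤ rho x → grdq h x = 0 ∧ ∀ v, fderiv ℝ (grdq h) x v = 0) ∧
    (∀ (x : V d) (b : Fin d), fderiv ℝ (grdq h) x (bv b.succ.succ) = 0) ∧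
    ∀ x v : V d, |fderiv ℝ (grdq h) x v| ≤ (2 + 4 * C₀) * rho x * ‖v‖ := by
  have hs : ContDiff ℝ ∞ (grdq (d := d) h) := grd_r2_smooth.mul (s1.pow 2)
  have hf : ∀ x v : V d, fderiv ℝ (grdq h) x v =
      2 * (x 0 * v 0 + x 1 * v 1) * chh (2 * h) x ^ 2 +
        rho x ^ 2 * (2 * chh (2 * h) x * fderiv ℝ (chh (2 * h)) x v) := by
    intro x v
    obtain ⟨ℓ, h1, h2⟩ := grd_r2 x
    have h3 : HasFDerivAt (chh (2 * h)) (fderiv ℝ (chh (2 * h)) x) x :=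
      ((s1.differentiable (by simp)) x).hasFDerivAt
    have h4 := h1.mul (h3.mul h3)
    have e : (fun y : V d => rho y ^ 2 * (chh (2 * h) y * chh (2 * h) y)) = grdq h := by
      funext y
      unfold grdq
      ring
    have h5 := h4.fderiv
    rw [← e]
    change fderiv ℝ ((fun x : V d => rho x ^ 2) * (chh (2 * h) * chh (2 * h))) x v = _
    rw [h5]
    simp [h2]
    ring
  refine ⟨hs.of_le (by simp), fun x => ⟨by unfold grdq; positivity, ?_⟩, fun x hx => ⟨?_, ?_⟩,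
    fun x b => ?_, fun x v => ?_⟩
  · unfold grdq
    rcases le_or_gt (4 * h) (rho x) with hx | hx
    · rw [s4 x (by linarith)]
      nlinarith [sq_nonneg h]
    · have h1 : rho x ^ 2 ≤ (4 * h) ^ 2 := pow_le_pow_left₀ (grd_rho_nn x) hx.le 2
      have h2 : chh (2 * h) x ^ 2 ≤ 1 := pow_le_one₀ (s2 x).1 (s2 x).2
      calc rho x ^ 2 * chh (2 * h) x ^ 2 ≤ (4 * h) ^ 2 * 1 :=
            mul_le_mul h1 h2 (sq_nonneg _) (sq_nonneg _)
        _ = 16 * h ^ 2 := by ring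
  · unfold grdq
    rw [s4 x (by linarith)]
    simp
  · intro v
    rw [hf, s4 x (by linarith)]
    ring
  · rw [hf, s6]
    have e0 : (bv b.succ.succ : V d) 0 = 0 := by
      simp [bv, Fin.ext_iff]
    have e1 : (bv b.succ.succ : V d) 1 = 0 := by
      have : (1 : Fin (d + 2)) ≠ b.succ.succ := by
        intro hc
        have := congrArg Fin.val hc
        simp at this
      simp [bv, this]
    rw [e0, e1]
    ring
  · rw [hf]
    rcases le_or_gt (4 * h) (rho x) with hx | hx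
    · rw [s4 x (by linarith)]
      simp only [ne_eq, OfNat.ofNat_ne_zero, not_false_eq_true, zero_pow, mul_zero, zero_mul,
        add_zero, abs_zero]
      have := grd_rho_nn x
      positivity
    · have a1 := inner2_le x v
      have a2 := s2 x
      have a3 := s5 x v
      have a4 := grd_rho_nn x
      have a5 : chh (2 * h) x ^ 2 ≤ 1 := pow_le_one₀ a2.1 a2.2
      have b1 : |2 * (x 0 * v 0 + x 1 * v 1) * chh (2 * h) x ^ 2| ≤ 2 * (rho x * ‖v‖) := by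
        rw [abs_mul, abs_mul, abs_of_nonneg (sq_nonneg (chh (2 * h) x)), abs_of_pos (by norm_num :
          (0:ℝ) < 2)]
        have : 0 ≤ 2 * |x 0 * v 0 + x 1 * v 1| := by positivity
        nlinarith
      have b2 : |rho x ^ 2 * (2 * chh (2 * h) x * fderiv ℝ (chh (2 * h)) x v)| ≤
          4 * C₀ * (rho x * ‖v‖) := by
        rw [abs_mul, abs_mul, abs_mul, abs_of_nonneg (sq_nonneg (rho x)),
          abs_of_pos (by norm_num : (0:ℝ) < 2), abs_of_nonneg a2.1]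
        have c1 : 2 * chh (2 * h) x * |fderiv ℝ (chh (2 * h)) x v| ≤ 2 * 1 * (C₀ / (2 * h) * ‖v‖) :=
          mul_le_mul (by linarith [a2.2]) a3 (abs_nonneg _) (by norm_num)
        have c2 : rho x ^ 2 ≤ rho x * (4 * h) := by nlinarith
        calc rho x ^ 2 * (2 * chh (2 * h) x * |fderiv ℝ (chh (2 * h)) x v|)
            ≤ (rho x * (4 * h)) * (2 * 1 * (C₀ / (2 * h) * ‖v‖)) :=
              mul_le_mul c2 c1 (by have := a2.1; positivity) (by positivity)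
          _ = 4 * C₀ * (rho x * ‖v‖) := by
              field_simp
      calc _ ≤ |2 * (x 0 * v 0 + x 1 * v 1) * chh (2 * h) x ^ 2| +
            |rho x ^ 2 * (2 * chh (2 * h) x * fderiv ℝ (chh (2 * h)) x v)| := abs_add_le _ _
        _ ≤ 2 * (rho x * ‖v‖) + 4 * C₀ * (rho x * ‖v‖) := add_le_add b1 b2
        _ = _ := by ring

theorem grd_f {d : ℕ} {β : E d → ℝ} {q : V d → ℝ} (hβ : ContDiff ℝ 1 β) (hq : ContDiff ℝ 1 q)
    (x v : V d) : fderiv ℝ (fun x : V d => β (zp x) * q x) x v =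
      fderiv ℝ β (zp x) (zp v) * q x + β (zp x) * fderiv ℝ q x v := by
  have h1 : HasFDerivAt (fun x : V d => β (zp x)) ((fderiv ℝ β (zp x)).comp (zpL d)) x :=
    ((hβ.differentiable (by simp)) (zp x)).hasFDerivAt.comp x (zpL d).hasFDerivAt
  have h2 := h1.mul ((hq.differentiable (by simp)) x).hasFDerivAt
  have h3 : HasFDerivAt (fun x : V d => β (zp x) * q x) _ x := h2
  rw [h3.fderiv]
  simp [zpL_apply]
  ring

theorem grd_f_smooth {d : ℕ} {β : E d → ℝ} {q : V d → ℝ} (hβ : ContDiff ℝ 1 β)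
    (hq : ContDiff ℝ 1 q) : ContDiff ℝ 1 (fun x : V d => β (zp x) * q x) :=
  (hβ.comp (zpL d).contDiff).mul hq

theorem grd_zp2 {d : ℕ} (b : Fin d) : zp (bv b.succ.succ : V d) = bv b := by
  ext i
  simp [zp, bv, Pi.single_apply]

theorem grd_zp0 {d : ℕ} : zp (bv 0 : V d) = 0 := by
  ext i
  simp [zp, bv]

theorem grd_zp1 {d : ℕ} : zp (bv 1 : V d) = 0 := by
  ext i
  have : (i.succ.succ : Fin (d + 2)) ≠ 1 := by
    intro hc
    have := congrArg Fin.val hc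
    simp at this
  simp [zp, bv, this]

theorem grd_bvn {n : ℕ} (i : Fin n) : ‖(bv i : E n)‖ = 1 := by
  simp [bv]

theorem grd_nsq_nn {n m : ℕ} (L : E n →L[ℝ] E m) : 0 ≤ nsq L :=
  Finset.sum_nonneg fun _ _ => sq_nonneg _

theorem grd_nzs_nn {d m : ℕ} (L : V d →L[ℝ] E m) : 0 ≤ nzs L :=
  Finset.sum_nonneg fun _ _ => sq_nonneg _

theorem grd_le_nsq {n m : ℕ} (L : E n →L[ℝ] E m) (k : Fin n) : ‖L (bv k)‖ ^ 2 ≤ nsq L :=
  Finset.single_le_sum (f := fun k => ‖L (bv k)‖ ^ 2) (fun _ _ => sq_nonneg _) (Finset.mem_univ k)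

theorem grd_le_nzs {d m : ℕ} (L : V d →L[ℝ] E m) (k : Fin d) :
    ‖L (bv k.succ.succ)‖ ^ 2 ≤ nzs L :=
  Finset.single_le_sum (f := fun k : Fin d => ‖L (bv k.succ.succ)‖ ^ 2) (fun _ _ => sq_nonneg _)
    (Finset.mem_univ k)

theorem grd_nzs_le {d m : ℕ} (L : V d →L[ℝ] E m) : nzs L ≤ nsq L := by
  unfold nzs nsq
  rw [Fin.sum_univ_succ, Fin.sum_univ_succ]
  have h1 := sq_nonneg ‖L (bv 0)‖
  have h2 := sq_nonneg ‖L (bv (Fin.succ 0))‖
  linarith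

/-- the pointwise estimate of the error term -/
theorem grd_pt {d m : ℕ} (L : V d →L[ℝ] E m) (ℓ : V d →L[ℝ] ℝ) (a : Fin d) {r c₀ c₁ : ℝ}
    (hr : 0 ≤ r) (h0 : 0 ≤ c₀) (h1 : 0 ≤ c₁) (e0 : |ℓ (bv 0)| ≤ c₀ * r) (e1 : |ℓ (bv 1)| ≤ c₀ * r)
    (e2 : ∀ b : Fin d, |ℓ (bv b.succ.succ)| ≤ c₁) :
    |2 * ∑ i, ⟪L (bv i), L (bv a.succ.succ)⟫ * ℓ (bv i)| ≤
      (4 * c₀ + 2 * d * c₁) * (nzs L + r ^ 2 * nsq L) := by
  have hN := grd_le_nzs L a
  have hn := grd_nsq_nn L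
  have hz := grd_nzs_nn L
  set N := ‖L (bv a.succ.succ)‖ with hNdef
  have hN0 : 0 ≤ N := norm_nonneg _
  set P := nzs L + r ^ 2 * nsq L with hP
  have hP0 : 0 ≤ P := by positivity
  have hj : ∀ j : Fin (d + 2), |ℓ (bv j)| ≤ c₀ * r →
      |⟪L (bv j), L (bv a.succ.succ)⟫ * ℓ (bv j)| ≤ c₀ * P := by
    intro j hj
    have k1 := abs_real_inner_le_norm (L (bv j)) (L (bv a.succ.succ))
    have k2 := grd_le_nsq L j
    rw [abs_mul]
    have k3 : |⟪L (bv j), L (bv a.succ.succ)⟫| * |ℓ (bv j)| ≤ (‖L (bv j)‖ * N) * (c₀ * r) :=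
      mul_le_mul k1 hj (abs_nonneg _) (by positivity)
    have k4 : r * ‖L (bv j)‖ * N ≤ P := by
      have k5 : r * ‖L (bv j)‖ * N ≤ ((r * ‖L (bv j)‖) ^ 2 + N ^ 2) / 2 := by
        nlinarith [sq_nonneg (r * ‖L (bv j)‖ - N)]
      have k6 : (r * ‖L (bv j)‖) ^ 2 ≤ r ^ 2 * nsq L := by
        rw [mul_pow]
        exact mul_le_mul_of_nonneg_left k2 (sq_nonneg _)
      have k7 : 0 ≤ r ^ 2 * nsq L := by positivity
      linarith
    calc _ ≤ (‖L (bv j)‖ * N) * (c₀ * r) := k3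
      _ = c₀ * (r * ‖L (bv j)‖ * N) := by ring
      _ ≤ c₀ * P := mul_le_mul_of_nonneg_left k4 h0
  have hb : ∀ b : Fin d, |⟪L (bv b.succ.succ), L (bv a.succ.succ)⟫ * ℓ (bv b.succ.succ)| ≤
      c₁ * P := by
    intro b
    have k1 := abs_real_inner_le_norm (L (bv b.succ.succ)) (L (bv a.succ.succ))
    have k2 := grd_le_nzs L b
    rw [abs_mul]
    have k3 : |⟪L (bv b.succ.succ), L (bv a.succ.succ)⟫| * |ℓ (bv b.succ.succ)| ≤
        (‖L (bv b.succ.succ)‖ * N) * c₁ :=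
      mul_le_mul k1 (e2 b) (abs_nonneg _) (by positivity)
    have k4 : ‖L (bv b.succ.succ)‖ * N ≤ P := by
      have k5 : ‖L (bv b.succ.succ)‖ * N ≤ (‖L (bv b.succ.succ)‖ ^ 2 + N ^ 2) / 2 := by
        nlinarith [sq_nonneg (‖L (bv b.succ.succ)‖ - N)]
      have k7 : 0 ≤ r ^ 2 * nsq L := by positivity
      linarith
    calc _ ≤ (‖L (bv b.succ.succ)‖ * N) * c₁ := k3
      _ = c₁ * (‖L (bv b.succ.succ)‖ * N) := by ring
      _ ≤ c₁ * P := mul_le_mul_of_nonneg_left k4 h1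
  rw [abs_mul, abs_of_pos (by norm_num : (0 : ℝ) < 2), Fin.sum_univ_succ, Fin.sum_univ_succ]
  have t0 := hj 0 e0
  have t1 : |⟪L (bv (Fin.succ 0)), L (bv a.succ.succ)⟫ * ℓ (bv (Fin.succ 0))| ≤ c₀ * P :=
    hj (Fin.succ 0) e1
  have t2 : |∑ b : Fin d, ⟪L (bv b.succ.succ), L (bv a.succ.succ)⟫ * ℓ (bv b.succ.succ)| ≤
      d * (c₁ * P) := by
    refine (Finset.abs_sum_le_sum_abs _ _).trans ((Finset.sum_le_sum fun b _ => hb b).trans ?_)
    rw [Finset.sum_const, Finset.card_univ, Fintype.card_fin, nsmul_eq_mul]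
  have t3 := abs_add_le (⟪L (bv 0), L (bv a.succ.succ)⟫ * ℓ (bv 0))
    (⟪L (bv (Fin.succ 0)), L (bv a.succ.succ)⟫ * ℓ (bv (Fin.succ 0)) +
      ∑ b : Fin d, ⟪L (bv b.succ.succ), L (bv a.succ.succ)⟫ * ℓ (bv b.succ.succ))
  have t4 := abs_add_le (⟪L (bv (Fin.succ 0)), L (bv a.succ.succ)⟫ * ℓ (bv (Fin.succ 0)))
    (∑ b : Fin d, ⟪L (bv b.succ.succ), L (bv a.succ.succ)⟫ * ℓ (bv b.succ.succ))
  calc _ ≤ 2 * (c₀ * P + (c₀ * P + d * (c₁ * P))) := by linarith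
    _ = _ := by ring

end Pool.Agent.H79.AN
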